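import Pool.Agent.L7h34.ME.Pz

set_option autoImplicit false

namespace Pool.Agent.L7h34.ME

open Finset MeasureTheory Filter Polynomial Pool.Agent.L7h2.ME

theorem meas_AA (y : ℤ) (x β a b : ℝ) : MeasurableSet (AA y x β a b) := by
  have h1 : Measurable (fun α : ℝ => ⌊α * x + β⌋) :=
    Int.measurable_floor.comp ((measurable_id.mul_const x).add_const β)
  have h2 : MeasurableSet {m : ℤ | IsPr (y + 2 * m)} := MeasurableSet.of_discrete
  have : AA y x β a b = Set.Ioc a b ∩ (fun α : ℝ => ⌊α * x + β⌋) ⁻¹' {m : ℤ | IsPr (y + 2 * m)} := rfl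
  rw [this]
  exact measurableSet_Ioc.inter (h1 h2)

theorem AA_sub (y : ℤ) (x β a b : ℝ) : AA y x β a b ⊆ Set.Ioc a b := fun _ h => h.1

theorem vreal_pi {k : ℕ} (s : Fin k → Set ℝ) :
    volume.real (Set.pi Set.univ s) = ∏ i, volume.real (s i) := by
  rw [measureReal_def, volume_pi_pi, ENNReal.toReal_prod]
  rfl

theorem vreal_Ioc {k : ℕ} {a b : Fin k → ℝ} (h : ∀ i, a i < b i) :
    volume.real (Set.pi Set.univ (fun i => Set.Ioc (a i) (b i))) = ∏ i, (b i - a i) := by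
  rw [vreal_pi]
  refine Finset.prod_congr rfl fun i _ => ?_
  rw [Real.volume_real_Ioc_of_le (h i).le]

/-- the asymptotic inequality used for large `N` -/
theorem asy (k : ℕ) (D : ℝ) : ∃ N₀ : ℕ, ∀ N : ℕ, N₀ ≤ N →
    D * Real.log N ^ (2 * k) * (N : ℝ) ^ (3 / 2 : ℝ) ≤ (N : ℝ) ^ 2 := by
  have h1 := (isLittleO_log_rpow_rpow_atTop (s := (1 / 2 : ℝ)) ((2 * k : ℕ) : ℝ) (by norm_num)).comp_tendsto
    tendsto_natCast_atTop_atTop
  have h2 := h1.bound (c := 1 / (|D| + 1)) (by positivity)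
  obtain ⟨N₀, hN₀⟩ := eventually_atTop.1 h2
  refine ⟨max N₀ 1, fun N hN => ?_⟩
  have hN1 : (1 : ℝ) ≤ N := by exact_mod_cast le_trans (le_max_right _ _) hN
  have h3 := hN₀ N (le_trans (le_max_left _ _) hN)
  simp only [Function.comp_apply, Real.norm_eq_abs] at h3
  have hlog : 0 ≤ Real.log N := Real.log_nonneg hN1
  rw [Real.rpow_natCast, abs_of_nonneg (pow_nonneg hlog (2 * k)),
    abs_of_nonneg (Real.rpow_nonneg (by linarith : (0 : ℝ) ≤ N) (1 / 2))] at h3
  have h4 : (|D| + 1) * Real.log N ^ (2 * k) ≤ (N : ℝ) ^ (1 / 2 : ℝ) := by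
    calc (|D| + 1) * Real.log N ^ (2 * k) ≤ (|D| + 1) * (1 / (|D| + 1) * (N : ℝ) ^ (1 / 2 : ℝ)) := by gcongr
      _ = (N : ℝ) ^ (1 / 2 : ℝ) := by field_simp
  have h5 : D * Real.log N ^ (2 * k) ≤ (N : ℝ) ^ (1 / 2 : ℝ) := by
    refine le_trans ?_ h4
    gcongr
    linarith [le_abs_self D]
  calc D * Real.log N ^ (2 * k) * (N : ℝ) ^ (3 / 2 : ℝ) ≤ (N : ℝ) ^ (1 / 2 : ℝ) * (N : ℝ) ^ (3 / 2 : ℝ) := by gcongr
    _ = (N : ℝ) ^ 2 := by
      rw [← Real.rpow_add (by linarith), ← Real.rpow_natCast]; norm_num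

open Classical in
theorem s_BOX (h1 : S_PAIR) (h2 : S_RES) (h3 : S_WIN) : S_BOX := by
  intro k e he
  obtain ⟨C, hC, hP⟩ := h1
  choose c hc hW using fun i => h3 (e i) (he i)
  have hcp : 0 < ∏ i, c i := Finset.prod_pos fun i _ => hc i
  refine ⟨(∏ i, c i) / 4, (∏ i, c i) ^ 2 / (8 * C ^ k), by positivity, by positivity, ?_⟩
  intro Q a b hAdm
  have hab : ∀ i, a i < b i := fun i => (hAdm i).1
  set V : ℝ := ∏ i, (b i - a i) with hV
  have hVp : 0 < V := Finset.prod_pos fun i _ => by linarith [hab i]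
  choose NP hNP using fun i => hP (e i) (he i) (a i) (b i) (hab i)
  choose NR hNR using fun i => h2 (e i) (he i)
  choose NW hNW using fun i => hW i (Q i) (a i) (b i) (hAdm i) (1 / (2 * k + 1)) (by positivity)
  obtain ⟨NA, hNA⟩ := asy k (4 * k / C ^ k)
  refine ⟨max (max (Finset.univ.sup NP) (Finset.univ.sup NR)) (max (Finset.univ.sup NW) (max NA 3)),
    fun N hN => ?_⟩
  have hNP' : ∀ i, NP i ≤ N := fun i => le_trans (Finset.le_sup (Finset.mem_univ i))
    (le_trans (le_trans (le_max_left _ _) (le_max_left _ _)) hN)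
  have hNR' : ∀ i, NR i ≤ N := fun i => le_trans (Finset.le_sup (Finset.mem_univ i))
    (le_trans (le_trans (le_max_right _ _) (le_max_left _ _)) hN)
  have hNW' : ∀ i, NW i ≤ N := fun i => le_trans (Finset.le_sup (Finset.mem_univ i))
    (le_trans (le_trans (le_max_left _ _) (le_max_right _ _)) hN)
  have hNA' : NA ≤ N := le_trans (le_trans (le_trans (le_max_left _ _) (le_max_right _ _))
    (le_max_right _ _)) hN
  have hN3 : 3 ≤ N := le_trans (le_trans (le_trans (le_max_right _ _) (le_max_right _ _))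
    (le_max_right _ _)) hN
  have hN3' : (3 : ℝ) ≤ N := by exact_mod_cast hN3
  have hL : 0 < Real.log N := Real.log_pos (by linarith)
  set L : ℝ := Real.log N with hLdef
  -- the sets
  set A : Fin k → ℕ → Set ℝ := fun i n => AA (pr n) ((n : ℝ) ^ e i) ((Q i).eval (n : ℝ)) (a i) (b i) with hA
  set bad : Fin k → Finset ℕ := fun i => (Ioc N (2 * N)).filter (fun n =>
    volume.real (A i n) < c i * (b i - a i) / L) with hbad
  set J : Finset ℕ := (Ioc N (2 * N)).filter (fun n => ∀ i, c i * (b i - a i) / L ≤ volume.real (A i n)) with hJ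
  have hJc : (N : ℝ) / 2 ≤ #J := by
    have hsub : Ioc N (2 * N) ⊆ J ∪ Finset.univ.biUnion bad := by
      intro n hn
      by_cases h : ∀ i, c i * (b i - a i) / L ≤ volume.real (A i n)
      · exact Finset.mem_union_left _ (Finset.mem_filter.2 ⟨hn, h⟩)
      · push Not at h
        obtain ⟨i, hi⟩ := h
        exact Finset.mem_union_right _ (Finset.mem_biUnion.2 ⟨i, Finset.mem_univ i, Finset.mem_filter.2 ⟨hn, hi⟩⟩)
    have h4 : (N : ℝ) ≤ #J + ∑ i, (#(bad i) : ℝ) := by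
      have := Finset.card_le_card hsub
      have h5 : #(Ioc N (2 * N)) = N := by simp; omega
      rw [h5] at this
      have h6 := this.trans ((Finset.card_union_le _ _).trans (Nat.add_le_add_left Finset.card_biUnion_le _))
      exact_mod_cast h6
    have h5 : ∑ i, (#(bad i) : ℝ) ≤ (N : ℝ) / 2 := by
      calc ∑ i, (#(bad i) : ℝ) ≤ ∑ i : Fin k, 1 / (2 * (k : ℝ) + 1) * N :=
            Finset.sum_le_sum fun i _ => hNW i N (hNW' i)
        _ = k * (1 / (2 * (k : ℝ) + 1) * N) := by simp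
        _ ≤ (N : ℝ) / 2 := by
            rw [show (k : ℝ) * (1 / (2 * (k : ℝ) + 1) * N) = (k / (2 * (k : ℝ) + 1)) * N by ring]
            have : (k : ℝ) / (2 * k + 1) ≤ 1 / 2 := by
              rw [div_le_div_iff₀ (by positivity) (by norm_num)]; linarith
            nlinarith
    linarith
  have hJp : 0 < (#J : ℝ) := by linarith
  -- the box and the products
  set B : Set (Fin k → ℝ) := Set.pi Set.univ (fun i => Set.Ioc (a i) (b i)) with hB
  have hBV : volume.real B = V := vreal_Ioc hab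
  have hBf : (volume : Measure (Fin k → ℝ)) B ≠ ⊤ := by
    intro h
    rw [measureReal_def, h] at hBV
    simp at hBV
    linarith
  set S : ℕ → Set (Fin k → ℝ) := fun n => Set.pi Set.univ (fun i => A i n) with hS
  have hSm : ∀ n ∈ J, MeasurableSet (S n) := fun n _ => MeasurableSet.univ_pi fun i => meas_AA _ _ _ _ _
  have hSB : ∀ n ∈ J, S n ⊆ B := fun n _ => Set.pi_mono fun i _ => AA_sub _ _ _ _ _
  set q : ℝ := (∏ i, c i) / L ^ k with hq
  have hqp : 0 < q := by positivity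
  have hSl : ∀ n ∈ J, V * q ≤ volume.real (S n) := by
    intro n hn
    rw [hS, vreal_pi]
    have : V * q = ∏ i, (c i * (b i - a i) / L) := by
      rw [Finset.prod_div_distrib, Finset.prod_mul_distrib, Finset.prod_const, Finset.card_univ,
        Fintype.card_fin, hq, hV]
      ring
    rw [this]
    refine Finset.prod_le_prod (fun i _ => ?_) (fun i _ => (Finset.mem_filter.1 hn).2 i)
    have := hab i
    have := hc i
    have : 0 < b i - a i := by linarith
    positivity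
  have hm1 : #J * (V * q) ≤ ∑ n ∈ J, volume.real (S n) := by
    have := Finset.card_nsmul_le_sum J (fun n => volume.real (S n)) (V * q) hSl
    simpa using this
  -- pairs
  set R : Finset (ℕ × ℕ) := (J ×ˢ J).filter (fun p => ∃ i, Res (e i) N p.1 p.2) with hR
  have hRc : (#R : ℝ) ≤ k * (N : ℝ) ^ (3 / 2 : ℝ) := by
    have hsub : R ⊆ Finset.univ.biUnion (fun i : Fin k => (Ioc N (2 * N) ×ˢ Ioc N (2 * N)).filter
        (fun p => Res (e i) N p.1 p.2)) := by
      intro p hp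
      obtain ⟨hp1, i, hi⟩ := Finset.mem_filter.1 hp
      refine Finset.mem_biUnion.2 ⟨i, Finset.mem_univ i, Finset.mem_filter.2 ⟨?_, hi⟩⟩
      have := Finset.mem_product.1 hp1
      exact Finset.mem_product.2 ⟨(Finset.mem_filter.1 this.1).1, (Finset.mem_filter.1 this.2).1⟩
    have h5 := (Finset.card_le_card hsub).trans Finset.card_biUnion_le
    have h6 : (#R : ℝ) ≤ ∑ i : Fin k, (#((Ioc N (2 * N) ×ˢ Ioc N (2 * N)).filter
        (fun p => Res (e i) N p.1 p.2)) : ℝ) := by exact_mod_cast h5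
    refine h6.trans ?_
    refine (Finset.sum_le_sum fun i _ => hNR i N (hNR' i)).trans ?_
    simp
  have hSub : ∀ n n' : ℕ, n ∈ J → volume.real (S n ∩ S n') ≤ V := by
    intro n n' hn
    rw [← hBV]
    exact measureReal_mono (Set.inter_subset_left.trans (hSB n hn)) hBf
  have hpair : ∀ p ∈ J ×ˢ J, p ∉ R → volume.real (S p.1 ∩ S p.2) ≤ V * (C ^ k / L ^ (2 * k)) := by
    intro p hp hpR
    have hp' := Finset.mem_product.1 hp
    have hres : ∀ i, ¬ Res (e i) N p.1 p.2 := by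
      intro i hi
      exact hpR (Finset.mem_filter.2 ⟨hp, i, hi⟩)
    have heq : S p.1 ∩ S p.2 = Set.pi Set.univ (fun i => A i p.1 ∩ A i p.2) := by
      rw [hS]; exact (Set.pi_inter_distrib).symm
    rw [heq, vreal_pi]
    have : V * (C ^ k / L ^ (2 * k)) = ∏ i : Fin k, (C * (b i - a i) / L ^ 2) := by
      rw [Finset.prod_div_distrib, Finset.prod_mul_distrib, Finset.prod_const, Finset.prod_const, Finset.card_univ,
        Fintype.card_fin, hV, ← pow_mul]
      ring
    rw [this]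
    refine Finset.prod_le_prod (fun i _ => measureReal_nonneg) (fun i _ => ?_)
    exact hNP i N (hNP' i) p.1 (Finset.mem_filter.1 hp'.1).1 p.2 (Finset.mem_filter.1 hp'.2).1 (hres i) _ _ _ _
  have hm2 : ∑ n ∈ J, ∑ n' ∈ J, volume.real (S n ∩ S n') ≤ 2 * (#J : ℝ) ^ 2 * V * (C ^ k / L ^ (2 * k)) := by
    rw [← Finset.sum_product' (s := J) (t := J) (f := fun n n' => volume.real (S n ∩ S n'))]
    have hle : ∀ p ∈ J ×ˢ J, volume.real (S p.1 ∩ S p.2) ≤ V * (C ^ k / L ^ (2 * k)) +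
        (if p ∈ R then V else 0) := by
      intro p hp
      by_cases hpR : p ∈ R
      · rw [if_pos hpR]
        have := hSub p.1 p.2 (Finset.mem_product.1 hp).1
        have h0 : 0 ≤ V * (C ^ k / L ^ (2 * k)) := by positivity
        linarith
      · rw [if_neg hpR, add_zero]
        exact hpair p hp hpR
    refine (Finset.sum_le_sum hle).trans ?_
    rw [Finset.sum_add_distrib, Finset.sum_const, ← Finset.sum_filter, Finset.sum_const, Finset.card_product,
      nsmul_eq_mul, nsmul_eq_mul]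
    have hRf : ((J ×ˢ J).filter (fun p => p ∈ R)) = R := by
      ext p; simp only [Finset.mem_filter]; constructor
      · exact fun h => h.2
      · exact fun h => ⟨(Finset.mem_filter.1 h).1, h⟩
    rw [hRf]
    have h7 : (#R : ℝ) * V ≤ (#J : ℝ) ^ 2 * V * (C ^ k / L ^ (2 * k)) := by
      have h8 := hNA N hNA'
      have h9 : (k : ℝ) * (N : ℝ) ^ (3 / 2 : ℝ) ≤ (#J : ℝ) ^ 2 * (C ^ k / L ^ (2 * k)) := by
        have h10 : (N : ℝ) ^ 2 / 4 ≤ (#J : ℝ) ^ 2 := by nlinarith
        have h11 : (k : ℝ) * (N : ℝ) ^ (3 / 2 : ℝ) ≤ (N : ℝ) ^ 2 / 4 * (C ^ k / L ^ (2 * k)) := by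
          have h12 : (k : ℝ) * (N : ℝ) ^ (3 / 2 : ℝ) = (4 * k / C ^ k * L ^ (2 * k) * (N : ℝ) ^ (3 / 2 : ℝ)) *
              (C ^ k / L ^ (2 * k)) / 4 := by
            field_simp
          rw [h12]
          have : 0 < C ^ k / L ^ (2 * k) := by positivity
          calc (4 * k / C ^ k * L ^ (2 * k) * (N : ℝ) ^ (3 / 2 : ℝ)) * (C ^ k / L ^ (2 * k)) / 4
              ≤ (N : ℝ) ^ 2 * (C ^ k / L ^ (2 * k)) / 4 := by gcongr
            _ = (N : ℝ) ^ 2 / 4 * (C ^ k / L ^ (2 * k)) := by ring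
        refine h11.trans ?_
        gcongr
      calc (#R : ℝ) * V ≤ (k * (N : ℝ) ^ (3 / 2 : ℝ)) * V := by gcongr
        _ ≤ ((#J : ℝ) ^ 2 * (C ^ k / L ^ (2 * k))) * V := by gcongr
        _ = (#J : ℝ) ^ 2 * V * (C ^ k / L ^ (2 * k)) := by ring
    have h13 : ((#J * #J : ℕ) : ℝ) * (V * (C ^ k / L ^ (2 * k))) = (#J : ℝ) ^ 2 * V * (C ^ k / L ^ (2 * k)) := by
      push_cast; ring
    rw [h13]
    linarith
  -- Paley-Zygmund
  have hm1p : 0 < ∑ n ∈ J, volume.real (S n) := lt_of_lt_of_le (by positivity) hm1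
  have hpz := pz volume J S B (MeasurableSet.univ_pi fun i => measurableSet_Ioc) hBf hSm hSB
    (#J * q / 2) _ _ (by positivity) rfl hm1p (by rw [hBV]; nlinarith) hm2
  have hsub : {ω | ω ∈ B ∧ #J * q / 2 ≤ (#(J.filter (fun n => ω ∈ S n)) : ℝ)} ⊆
      {α : Fin k → ℝ | (∀ i, α i ∈ Set.Ioc (a i) (b i)) ∧ (∏ i, c i) / 4 * N / L ^ k ≤ cnt e Q α N} := by
    rintro ω ⟨hω1, hω2⟩
    refine ⟨fun i => hω1 i (Set.mem_univ i), ?_⟩
    have h14 : (∏ i, c i) / 4 * N / L ^ k ≤ #J * q / 2 := by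
      have : (∏ i, c i) / 4 * N / L ^ k = (N / 2) * q / 2 := by rw [hq]; ring
      rw [this]; gcongr
    refine h14.trans (hω2.trans ?_)
    have : J.filter (fun n => ω ∈ S n) ⊆ (Ioc N (2 * N)).filter (fun n => ∀ i,
        IsPr (pr n + 2 * ⌊ω i * (n : ℝ) ^ e i + (Q i).eval (n : ℝ)⌋)) := by
      intro n hn
      obtain ⟨hn1, hn2⟩ := Finset.mem_filter.1 hn
      exact Finset.mem_filter.2 ⟨(Finset.mem_filter.1 hn1).1, fun i => (hn2 i (Set.mem_univ i)).2⟩
    unfold cnt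
    exact_mod_cast Finset.card_le_card this
  have hfin : (volume : Measure (Fin k → ℝ)) {α : Fin k → ℝ | (∀ i, α i ∈ Set.Ioc (a i) (b i)) ∧
      (∏ i, c i) / 4 * N / L ^ k ≤ cnt e Q α N} ≠ ⊤ :=
    ne_top_of_le_ne_top hBf (measure_mono fun α hα i _ => hα.1 i)
  refine le_trans ?_ (hpz.trans (measureReal_mono hsub hfin))
  rw [le_div_iff₀ (by positivity)]
  have h15 : (#J * (V * q)) ^ 2 ≤ (∑ n ∈ J, volume.real (S n)) ^ 2 := by gcongr
  refine le_trans (le_of_eq ?_) h15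
  rw [hq, pow_mul]
  field_simp
  ring

end Pool.Agent.L7h34.ME
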