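import Pool.Agent.L7h2.ME.Stm

set_option autoImplicit false

namespace Pool.Agent.L7h34.ME

open Finset MeasureTheory Filter Polynomial Pool.Agent.L7h2.ME

open Classical in
/-- second moment method (Paley–Zygmund) for a finite family of sets -/
theorem pz {Ω : Type*} [MeasurableSpace Ω] (μ : Measure Ω) (J : Finset ℕ) (S : ℕ → Set Ω) (B : Set Ω)
    (hB : MeasurableSet B) (hBf : μ B ≠ ⊤) (hS : ∀ n ∈ J, MeasurableSet (S n)) (hSB : ∀ n ∈ J, S n ⊆ B)
    (t m₁ m₂ : ℝ) (ht : 0 ≤ t) (hm1 : m₁ = ∑ n ∈ J, μ.real (S n)) (hm1p : 0 < m₁)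
    (ht1 : t * μ.real B ≤ m₁ / 2)
    (hm2 : ∑ n ∈ J, ∑ n' ∈ J, μ.real (S n ∩ S n') ≤ m₂) :
    m₁ ^ 2 / (4 * m₂) ≤ μ.real {ω | ω ∈ B ∧ t ≤ (#(J.filter (fun n => ω ∈ S n)) : ℝ)} := by
  set X : Ω → ℝ := fun ω => ∑ n ∈ J, (S n).indicator (fun _ => (1 : ℝ)) ω with hX
  have hXc : ∀ ω, X ω = (#(J.filter (fun n => ω ∈ S n)) : ℝ) := by
    intro ω
    simp only [hX, Set.indicator_apply, Finset.sum_ite, Finset.sum_const_zero, add_zero, Finset.sum_const,
      nsmul_eq_mul, mul_one]
  have hX0 : ∀ ω, 0 ≤ X ω := fun ω => by rw [hXc]; positivity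
  have hSf : ∀ n ∈ J, μ (S n) ≠ ⊤ := fun n hn => ne_top_of_le_ne_top hBf (measure_mono (hSB n hn))
  have hind : ∀ n ∈ J, Integrable ((S n).indicator (fun _ => (1 : ℝ))) μ := fun n hn =>
    (integrable_indicator_iff (hS n hn)).2 (integrableOn_const (hSf n hn))
  have hXi : Integrable X μ := integrable_finsetSum _ hind
  have hXm : Measurable X := by
    apply Finset.measurable_fun_sum
    intro n hn
    exact measurable_const.indicator (hS n hn)
  have hintX : ∫ ω, X ω ∂μ = m₁ := by
    rw [hm1, hX, integral_finsetSum _ hind]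
    refine Finset.sum_congr rfl fun n hn => ?_
    rw [integral_indicator (hS n hn)]
    simp
  have hX2 : ∀ ω, X ω ^ 2 = ∑ n ∈ J, ∑ n' ∈ J, (S n ∩ S n').indicator (fun _ => (1 : ℝ)) ω := by
    intro ω
    rw [sq, hX, Finset.sum_mul_sum]
    refine Finset.sum_congr rfl fun n hn => Finset.sum_congr rfl fun n' hn' => ?_
    by_cases h1 : ω ∈ S n <;> by_cases h2 : ω ∈ S n' <;> simp [h1, h2]
  have hind2 : ∀ n ∈ J, ∀ n' ∈ J, Integrable ((S n ∩ S n').indicator (fun _ => (1 : ℝ))) μ :=
    fun n hn n' hn' => (integrable_indicator_iff ((hS n hn).inter (hS n' hn'))).2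
      (integrableOn_const (ne_top_of_le_ne_top (hSf n hn) (measure_mono Set.inter_subset_left)))
  have hX2i : Integrable (fun ω => X ω ^ 2) μ := by
    have : (fun ω => X ω ^ 2) = fun ω => ∑ n ∈ J, ∑ n' ∈ J, (S n ∩ S n').indicator (fun _ => (1 : ℝ)) ω :=
      funext hX2
    rw [this]
    exact integrable_finsetSum _ fun n hn => integrable_finsetSum _ fun n' hn' => hind2 n hn n' hn'
  have hintX2 : ∫ ω, X ω ^ 2 ∂μ = ∑ n ∈ J, ∑ n' ∈ J, μ.real (S n ∩ S n') := by
    have : (fun ω => X ω ^ 2) = fun ω => ∑ n ∈ J, ∑ n' ∈ J, (S n ∩ S n').indicator (fun _ => (1 : ℝ)) ω :=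
      funext hX2
    rw [this, integral_finsetSum _ (fun n hn => integrable_finsetSum _ fun n' hn' => hind2 n hn n' hn')]
    refine Finset.sum_congr rfl fun n hn => ?_
    rw [integral_finsetSum _ (fun n' hn' => hind2 n hn n' hn')]
    refine Finset.sum_congr rfl fun n' hn' => ?_
    rw [integral_indicator ((hS n hn).inter (hS n' hn'))]
    simp
  set G : Set Ω := {ω | ω ∈ B ∧ t ≤ (#(J.filter (fun n => ω ∈ S n)) : ℝ)} with hG
  have hG' : G = B ∩ {ω | t ≤ X ω} := by
    ext ω; simp [hG, hXc]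
  have hGm : MeasurableSet G := by
    rw [hG']
    exact hB.inter (measurableSet_le measurable_const hXm)
  have hGf : μ G ≠ ⊤ := ne_top_of_le_ne_top hBf (measure_mono (by rw [hG']; exact Set.inter_subset_left))
  have hm2p : 0 < m₂ := by
    refine lt_of_lt_of_le ?_ hm2
    have : ∃ n ∈ J, 0 < μ.real (S n) := by
      by_contra hcon
      push Not at hcon
      have : m₁ ≤ 0 := by
        rw [hm1]; exact Finset.sum_nonpos hcon
      linarith
    obtain ⟨n, hn, hpos⟩ := this
    refine lt_of_lt_of_le ?_ (Finset.single_le_sum (f := fun n => ∑ n' ∈ J, μ.real (S n ∩ S n'))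
      (fun i _ => Finset.sum_nonneg fun _ _ => measureReal_nonneg) hn)
    refine lt_of_lt_of_le ?_ (Finset.single_le_sum (f := fun n' => μ.real (S n ∩ S n'))
      (fun i _ => measureReal_nonneg) hn)
    simpa using hpos
  set l : ℝ := 2 * m₂ / m₁ with hl
  have hlp : 0 < l := by positivity
  have hpt : ∀ ω, X ω ≤ t * B.indicator (fun _ => (1 : ℝ)) ω + (l / 2) * G.indicator (fun _ => (1 : ℝ)) ω
      + X ω ^ 2 / (2 * l) := by
    intro ω
    have hq : 0 ≤ X ω ^ 2 / (2 * l) := by positivity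
    by_cases hω : ω ∈ B
    · by_cases ht' : t ≤ X ω
      · have hωG : ω ∈ G := by rw [hG']; exact ⟨hω, ht'⟩
        rw [Set.indicator_of_mem hω, Set.indicator_of_mem hωG]
        have : X ω ≤ l / 2 + X ω ^ 2 / (2 * l) := by
          have h0 : l / 2 + X ω ^ 2 / (2 * l) - X ω = (X ω - l) ^ 2 / (2 * l) := by
            field_simp; ring
          have h1 : 0 ≤ (X ω - l) ^ 2 / (2 * l) := by positivity
          linarith
        linarith
      · have hωG : ω ∉ G := by rw [hG']; exact fun h => ht' h.2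
        rw [Set.indicator_of_mem hω, Set.indicator_of_notMem hωG]
        push Not at ht'
        linarith
    · have hωG : ω ∉ G := by rw [hG']; exact fun h => hω h.1
      rw [Set.indicator_of_notMem hω, Set.indicator_of_notMem hωG]
      have : X ω = 0 := by
        rw [hX]
        refine Finset.sum_eq_zero fun n hn => Set.indicator_of_notMem (fun h => hω (hSB n hn h)) _
      rw [this] at hq ⊢
      linarith
  have hiB : Integrable (B.indicator (fun _ => (1 : ℝ))) μ :=
    (integrable_indicator_iff hB).2 (integrableOn_const hBf)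
  have hiG : Integrable (G.indicator (fun _ => (1 : ℝ))) μ :=
    (integrable_indicator_iff hGm).2 (integrableOn_const hGf)
  have hmain := integral_mono hXi (((hiB.const_mul t).add (hiG.const_mul (l / 2))).add (hX2i.div_const (2 * l)))
    (fun ω => hpt ω)
  rw [integral_add' ((hiB.const_mul t).add (hiG.const_mul (l / 2))) (hX2i.div_const (2 * l)),
    integral_add' (hiB.const_mul t) (hiG.const_mul (l / 2)), integral_const_mul, integral_const_mul,
    integral_div, hintX, hintX2, integral_indicator hB, integral_indicator hGm] at hmain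
  simp only [integral_const, MeasurableSet.univ, measureReal_restrict_apply, Set.univ_inter, smul_eq_mul,
    mul_one] at hmain
  have h3 : (∑ n ∈ J, ∑ n' ∈ J, μ.real (S n ∩ S n')) / (2 * l) ≤ m₁ / 4 := by
    have : m₂ / (2 * l) = m₁ / 4 := by
      rw [hl]; field_simp; ring
    rw [← this]
    gcongr
  have h4 : m₁ / 4 ≤ l / 2 * μ.real G := by linarith
  rw [div_le_iff₀ (by positivity)]
  have h5 : l * m₁ = 2 * m₂ := by rw [hl]; field_simp
  have h6 : m₁ * (m₁ / 4) ≤ m₁ * (l / 2 * μ.real G) := by gcongr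
  nlinarith
end Pool.Agent.L7h34.ME
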