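import Pool.Agent.L7h34.ME.Win2

set_option autoImplicit false

namespace Pool.Agent.L7h34.ME

open Finset MeasureTheory Filter Polynomial Pool.Agent.L7h2.ME

theorem s_WIN (h : S_PTS) : S_WIN := by
  obtain ⟨δ, c, hδ, hδ2, hc, hcore⟩ := core h
  intro e he
  refine ⟨c / (e + 2), by positivity, ?_⟩
  intro Q a b hA η hη
  obtain ⟨hab, hQ, hcase⟩ := hA
  -- the degree
  obtain ⟨m, hm1, hme, hRa, hRap, hRb, hRbp⟩ : ∃ m : ℕ, 1 ≤ m ∧ m ≤ e + 1 ∧
      (Q + C a * X ^ e).natDegree ≤ m ∧ 0 < (Q + C a * X ^ e).coeff m ∧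
      (Q + C b * X ^ e).natDegree ≤ m ∧ 0 < (Q + C b * X ^ e).coeff m := by
    have hdeg : ∀ t : ℝ, (C t * X ^ e : ℝ[X]).natDegree ≤ e := fun t => natDegree_C_mul_X_pow_le t e
    rcases hcase with h1 | ⟨h1, h2⟩
    · refine ⟨e + 1, by omega, le_rfl, ?_, ?_, ?_, ?_⟩
      · exact (natDegree_add_le _ _).trans (max_le hQ ((hdeg a).trans (Nat.le_succ e)))
      · simpa [coeff_X_pow] using h1
      · exact (natDegree_add_le _ _).trans (max_le hQ ((hdeg b).trans (Nat.le_succ e)))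
      · simpa [coeff_X_pow] using h1
    · have hQe : Q.natDegree ≤ e := by
        rw [natDegree_le_iff_coeff_eq_zero]
        intro j hj
        rcases Nat.lt_or_ge (e + 1) j with hj' | hj'
        · exact coeff_eq_zero_of_natDegree_lt (lt_of_le_of_lt hQ hj')
        · have : j = e + 1 := by omega
          rw [this]; exact h1
      refine ⟨e, he, Nat.le_succ e, ?_, ?_, ?_, ?_⟩
      · exact (natDegree_add_le _ _).trans (max_le hQe (hdeg a))
      · simpa [coeff_X_pow] using h2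
      · exact (natDegree_add_le _ _).trans (max_le hQe (hdeg b))
      · simp only [coeff_add, coeff_C_mul, coeff_X_pow, if_true, mul_one]
        linarith
  set Ra : ℝ[X] := Q + C a * X ^ e with hRaD
  set Rb : ℝ[X] := Q + C b * X ^ e with hRbD
  set la : ℝ := Ra.coeff m with hla
  set lb : ℝ := Rb.coeff m with hlb
  have hRae : ∀ x : ℝ, Ra.eval x = a * x ^ e + Q.eval x := fun x => by simp [hRaD]; ring
  have hRbe : ∀ x : ℝ, Rb.eval x = b * x ^ e + Q.eval x := fun x => by simp [hRbD]; ring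
  set u : ℕ → ℝ := fun n => pr n + 2 * (a * (n : ℝ) ^ e + Q.eval (n : ℝ)) with hu
  have hu' : ∀ n : ℕ, u n = pr n + 2 * Ra.eval (n : ℝ) := fun n => by rw [hRae]
  obtain ⟨xa, hxa, hbda⟩ := poly_bds Ra m hRa hRap
  obtain ⟨xb, hxb, hbdb⟩ := poly_bds Rb m hRb hRbp
  obtain ⟨xd, cd, hxd, hcd, hdiff⟩ := poly_diff Ra m hm1 hRa hRap
  obtain ⟨CP, hCP, hPu⟩ := pr_upper
  set K : ℝ := max (20 * CP) (4 * 2 ^ m * lb / la) with hK
  have hK1 : 1 ≤ K := by
    have : 20 * CP ≤ K := le_max_left _ _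
    linarith
  refine hcore e m he hm1 hme Q a b hab u (fun n => rfl) (2 * cd) (2 * K) (by positivity) (by linarith) ?_ ?_ ?_ ?_ η hη
  · -- growth
    refine ⟨⌈xd⌉₊, fun n n' hn hn' => ?_⟩
    have h1 : xd ≤ n := (Nat.le_ceil xd).trans (by exact_mod_cast hn)
    have h2 : (n : ℝ) ≤ n' := by exact_mod_cast hn'
    have h3 := hdiff n n' h1 h2
    have h4 : (pr n : ℝ) ≤ pr n' := by exact_mod_cast pr_mono hn'
    rw [hu' n, hu' n']
    linarith
  · -- the ratio
    refine ⟨⌈xa⌉₊ + ⌈xb⌉₊ + 4, fun N n hN hn => ?_⟩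
    have hnI := Finset.mem_Ioc.1 hn
    have hN4 : (4 : ℝ) ≤ N := by exact_mod_cast (show 4 ≤ N by omega)
    have hNn : (N : ℝ) ≤ n := by exact_mod_cast hnI.1.le
    have hn2 : (n : ℝ) ≤ 2 * N := by exact_mod_cast hnI.2
    have hxaN : xa ≤ N := (Nat.le_ceil xa).trans (by exact_mod_cast (show ⌈xa⌉₊ ≤ N by omega))
    have hxbn : xb ≤ n := (Nat.le_ceil xb).trans (by exact_mod_cast (show ⌈xb⌉₊ ≤ n by omega))
    have e1 : u n + 2 * (b - a) * (n : ℝ) ^ e = pr n + 2 * Rb.eval (n : ℝ) := by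
      rw [hRbe]; simp only [hu]; ring
    rw [e1, hu' N]
    have h1 := (hbdb n hxbn).2
    have h2 := (hbda N hxaN).1
    have h3 := hPu n (by omega)
    have h4 := pr_lower (show 2 ≤ N by omega)
    have hlN : 0 < Real.log N := Real.log_pos (by linarith)
    have h5 : Real.log n ≤ 2 * Real.log N := by
      have : Real.log n ≤ Real.log ((N : ℝ) ^ 2) := Real.log_le_log (by linarith) (by nlinarith)
      rw [Real.log_pow] at this
      exact_mod_cast this
    have h6 : (pr n : ℝ) ≤ 20 * CP * pr N := by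
      calc (pr n : ℝ) ≤ CP * (n * Real.log n) := h3
        _ ≤ CP * ((2 * N) * (2 * Real.log N)) := by
            have : 0 ≤ Real.log n := Real.log_nonneg (by linarith)
            gcongr
        _ = 4 * CP * (N * Real.log N) := by ring
        _ ≤ 4 * CP * (5 * pr N) := by gcongr
        _ = 20 * CP * pr N := by ring
    have h7 : 2 * Rb.eval (n : ℝ) ≤ (4 * 2 ^ m * lb / la) * (2 * Ra.eval (N : ℝ)) := by
      calc 2 * Rb.eval (n : ℝ) ≤ 2 * (2 * lb * (n : ℝ) ^ m) := by linarith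
        _ ≤ 2 * (2 * lb * (2 * N : ℝ) ^ m) := by
            have : 0 < lb := hRbp
            gcongr
        _ = (4 * 2 ^ m * lb / la) * (2 * (la / 2 * (N : ℝ) ^ m)) := by
            have : la ≠ 0 := hRap.ne'
            field_simp
            try ring
        _ ≤ (4 * 2 ^ m * lb / la) * (2 * Ra.eval (N : ℝ)) := by
            have : 0 < lb := hRbp
            have : 0 < la := hRap
            gcongr
    have h8 : (20 * CP) ≤ K := le_max_left _ _
    have h9 : (4 * 2 ^ m * lb / la) ≤ K := le_max_right _ _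
    have h10 : 0 ≤ Ra.eval (N : ℝ) := by
      have : 0 ≤ la / 2 * (N : ℝ) ^ m := by
        have : 0 < la := hRap
        positivity
      linarith
    have h11 : 20 * CP * (pr N : ℝ) ≤ K * pr N := by gcongr
    have h12 : (4 * 2 ^ m * lb / la) * (2 * Ra.eval (N : ℝ)) ≤ K * (2 * Ra.eval (N : ℝ)) := by gcongr
    have h13 : 2 * K / 2 * ((pr N : ℝ) + 2 * Ra.eval (N : ℝ)) = K * pr N + K * (2 * Ra.eval (N : ℝ)) := by ring
    rw [h13]
    linarith
  · -- to infinity
    intro Y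
    refine ⟨⌈xa⌉₊ + ⌈Y⌉₊ + 1, fun N hN => ?_⟩
    have hxaN : xa ≤ N := (Nat.le_ceil xa).trans (by exact_mod_cast (show ⌈xa⌉₊ ≤ N by omega))
    have hYN : Y ≤ N := (Nat.le_ceil Y).trans (by exact_mod_cast (show ⌈Y⌉₊ ≤ N by omega))
    have h1 := (hbda N hxaN).1
    have h2 : (N : ℝ) + 1 ≤ pr N := by exact_mod_cast le_pr (show 1 ≤ N by omega)
    have h3 : 0 ≤ la / 2 * (N : ℝ) ^ m := by
      have : 0 < la := hRap
      positivity
    rw [hu' N]
    linarith
  · -- the upper bound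
    obtain ⟨N₁, hN₁⟩ := log_small (2 * CP) δ hδ
    obtain ⟨N₂, hN₂⟩ := const_small (8 * la) δ hδ
    refine ⟨⌈xa⌉₊ + N₁ + N₂ + 2, fun N hN => ?_⟩
    have hN2 : (2 : ℝ) ≤ N := by exact_mod_cast (show 2 ≤ N by omega)
    have hN0 : (0 : ℝ) < N := by linarith
    have hxaN : xa ≤ N := (Nat.le_ceil xa).trans (by exact_mod_cast (show ⌈xa⌉₊ ≤ N by omega))
    have h1 := (hbda N hxaN).2
    have h2 := hPu N (by omega)
    have h3 := hN₁ N (by omega)
    have h4 := hN₂ N (by omega)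
    have h5 : (N : ℝ) ≤ (N : ℝ) ^ m := le_self_pow₀ (by linarith) (by omega)
    rw [hu' N, Real.rpow_add hN0, Real.rpow_natCast]
    have h6 : (pr N : ℝ) ≤ (N : ℝ) ^ m * (N : ℝ) ^ δ / 2 := by
      have h0 : (0 : ℝ) ≤ (N : ℝ) ^ δ := by positivity
      calc (pr N : ℝ) ≤ CP * (N * Real.log N) := h2
        _ = N * (2 * CP * Real.log N) / 2 := by ring
        _ ≤ (N : ℝ) ^ m * (N : ℝ) ^ δ / 2 := by gcongr
    have h7 : 2 * Ra.eval (N : ℝ) ≤ (N : ℝ) ^ m * (N : ℝ) ^ δ / 2 := by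
      calc 2 * Ra.eval (N : ℝ) ≤ 2 * (2 * la * (N : ℝ) ^ m) := by linarith
        _ = (N : ℝ) ^ m * (8 * la) / 2 := by ring
        _ ≤ (N : ℝ) ^ m * (N : ℝ) ^ δ / 2 := by gcongr
    linarith

end Pool.Agent.L7h34.ME
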