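import Pool.Agent.L7h34.ME.Box
import Pool.Agent.H646.Cheb

set_option autoImplicit false

namespace Pool.Agent.L7h34.ME

open Finset MeasureTheory Filter Polynomial Pool.Agent.L7h2.ME

theorem pr_prime (n : ℕ) : (pr n).Prime := Nat.prime_nth_prime _

theorem pr_mono {n n' : ℕ} (h : n ≤ n') : pr n ≤ pr n' := by
  unfold pr
  exact (Nat.nth_monotone Nat.infinite_setOfPred_prime) (Nat.sub_le_sub_right h 1)

theorem le_pr {n : ℕ} (hn : 1 ≤ n) : n + 1 ≤ pr n := by
  have := Nat.add_two_le_nth_prime (n - 1)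
  unfold pr
  omega

theorem pr_lower {n : ℕ} (hn : 2 ≤ n) : (n : ℝ) * Real.log n ≤ 5 * pr n := by
  have hn' : (2 : ℝ) ≤ n := by exact_mod_cast hn
  have hp := le_pr (show 1 ≤ n by omega)
  set p : ℕ := pr n with hpd
  have hp' : (n : ℝ) + 1 ≤ p := by exact_mod_cast hp
  have hcount : p.primeCounting = n := by
    have h := Nat.primeCounting'_nth_eq (n - 1)
    have hprime : Nat.Prime p := pr_prime n
    unfold Nat.primeCounting
    unfold Nat.primeCounting' at h ⊢
    rw [Nat.count_succ, if_pos hprime]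
    have : Nat.count Nat.Prime p = n - 1 := h
    omega
  have h1 := Chebyshev.pi_le_log4_mul_div (x := (p : ℝ)) (by linarith)
  rw [Nat.floor_natCast, hcount, Real.log_sqrt (by linarith)] at h1
  have hlp : 0 < Real.log p := Real.log_pos (by linarith)
  have hs : 0 < Real.sqrt p := Real.sqrt_pos.2 (by linarith)
  have hss : Real.sqrt p * Real.sqrt p = p := Real.mul_self_sqrt (by linarith)
  have hsq : Real.log p ≤ 2 * Real.sqrt p := by
    have e : Real.log p = 2 * Real.log (Real.sqrt p) := by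
      rw [Real.log_sqrt (by linarith)]; ring
    rw [e]
    have := Real.log_le_sub_one_of_pos hs
    linarith
  have hl4 : Real.log 4 ≤ 1.4 := by
    have h2 : Real.log 4 = 2 * Real.log 2 := by
      rw [show (4 : ℝ) = 2 ^ 2 by norm_num, Real.log_pow]; norm_num
    have := Real.log_two_lt_d9
    rw [h2]; linarith
  have h2 : (n : ℝ) * Real.log p ≤ 5 * p := by
    have h3 : (n : ℝ) * Real.log p ≤ (Real.log 4 * p / (Real.log p / 2) + Real.sqrt p) * Real.log p := by gcongr
    have h4 : (Real.log 4 * p / (Real.log p / 2) + Real.sqrt p) * Real.log p =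
        2 * Real.log 4 * p + Real.sqrt p * Real.log p := by field_simp
    have h5 : Real.sqrt p * Real.log p ≤ 2 * p := by nlinarith
    have h6 : Real.log 4 * p ≤ 1.4 * p := by gcongr
    nlinarith
  refine le_trans ?_ h2
  have : Real.log n ≤ Real.log p := Real.log_le_log (by linarith) (by linarith)
  gcongr

theorem pr_upper : ∃ C : ℝ, 1 ≤ C ∧ ∀ n : ℕ, 2 ≤ n → (pr n : ℝ) ≤ C * (n * Real.log n) := by
  obtain ⟨C, hC, h⟩ := Pool.Agent.H646.ChebM.P_le
  refine ⟨C, hC, fun n hn => le_trans ?_ (h n hn)⟩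
  have : pr n ≤ Nat.nth Nat.Prime n := (Nat.nth_monotone Nat.infinite_setOfPred_prime) (Nat.sub_le n 1)
  exact_mod_cast this

/-- the measure of `AA` from below by the number of primes -/
theorem AA_ge (y : ℕ) (hy : Odd y) (x β a b : ℝ) (hx : 0 < x) (x₁ y₁ : ℕ) (h1 : (y : ℝ) + 2 * (a * x + β) ≤ x₁)
    (h2 : (y₁ : ℝ) + 1 ≤ y + 2 * (b * x + β)) (h3 : 2 ≤ x₁) (V : ℝ) (hV : 1 < V) (h4 : (y₁ : ℝ) ≤ V) :
    th x₁ y₁ / (x * Real.log V) ≤ volume.real (AA y x β a b) := by
  have hlV : 0 < Real.log V := Real.log_pos hV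
  set P : Finset ℕ := (Ioo x₁ y₁).filter Nat.Prime with hP
  have hth : th x₁ y₁ ≤ #P * Real.log V := by
    unfold th
    have := Finset.sum_le_card_nsmul P (fun p : ℕ => Real.log (p : ℝ)) (Real.log V) (fun p hp => by
      have hp' := Finset.mem_filter.1 hp
      have hp1 := Finset.mem_Ioo.1 hp'.1
      refine Real.log_le_log (by exact_mod_cast hp'.2.pos) (le_trans ?_ h4)
      exact_mod_cast hp1.2.le)
    simpa using this
  -- the intervals
  set I : ℕ → Set ℝ := fun p => Set.Ico (((p : ℝ) - y) / 2 / x - β / x) ((((p : ℝ) - y) / 2 + 1) / x - β / x) with hI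
  have hIsub : ∀ p ∈ P, I p ⊆ AA y x β a b := by
    intro p hp α hα
    have hp' := Finset.mem_filter.1 hp
    have hp1 := Finset.mem_Ioo.1 hp'.1
    have hodd : Odd p := hp'.2.odd_of_ne_two (by omega)
    obtain ⟨m, hm⟩ : ∃ m : ℤ, (p : ℤ) = y + 2 * m := by
      have h5 : Even ((p : ℤ) - y) := by
        have : Odd (p : ℤ) := by exact_mod_cast hodd
        have : Odd (y : ℤ) := by exact_mod_cast hy
        rw [Int.even_sub']
        tauto
      obtain ⟨m, hm⟩ := h5
      exact ⟨m, by linarith⟩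
    have hmr : ((p : ℝ) - y) / 2 = m := by
      have : (p : ℝ) = y + 2 * m := by exact_mod_cast hm
      rw [this]; ring
    have hα' : α ∈ Set.Ico (((p : ℝ) - y) / 2 / x - β / x) ((((p : ℝ) - y) / 2 + 1) / x - β / x) := hα
    rw [hmr] at hα'
    obtain ⟨hα1, hα2⟩ := hα'
    have e1 : (m : ℝ) / x - β / x = (m - β) / x := by ring
    have e2 : ((m : ℝ) + 1) / x - β / x = (m + 1 - β) / x := by ring
    rw [e1, div_le_iff₀ hx] at hα1
    rw [e2, lt_div_iff₀ hx] at hα2
    have hpx : (x₁ : ℝ) < p := by exact_mod_cast hp1.1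
    have hpy : (p : ℝ) + 1 ≤ y₁ := by exact_mod_cast hp1.2
    have hpm : (p : ℝ) = y + 2 * m := by exact_mod_cast hm
    refine ⟨⟨?_, ?_⟩, p, hp'.2, ?_⟩
    · have : a * x < α * x := by linarith
      exact lt_of_mul_lt_mul_right this hx.le
    · have : α * x ≤ b * x := by linarith
      exact le_of_mul_le_mul_right this hx
    · have hfl : ⌊α * x + β⌋ = m := by
        rw [Int.floor_eq_iff]
        constructor <;> linarith
      rw [hfl]; exact hm
  have hdisj : (P : Set ℕ).PairwiseDisjoint I := by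
    intro p hp p' hp' hne
    have hq := Finset.mem_filter.1 hp
    have hq' := Finset.mem_filter.1 hp'
    have hq1 := Finset.mem_Ioo.1 hq.1
    have hq1' := Finset.mem_Ioo.1 hq'.1
    have hodd : Odd p := hq.2.odd_of_ne_two (by omega)
    have hodd' : Odd p' := hq'.2.odd_of_ne_two (by omega)
    rw [Function.onFun, Set.disjoint_left]
    rintro α ⟨ha1, ha2⟩ ⟨hb1, hb2⟩
    have e1 : ∀ z : ℝ, z / x - β / x = (z - β) / x := fun z => by ring
    rw [e1, div_le_iff₀ hx] at ha1 hb1
    rw [e1, lt_div_iff₀ hx] at ha2 hb2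
    have h5 : (p : ℝ) < p' + 2 := by linarith
    have h6 : (p' : ℝ) < p + 2 := by linarith
    have h7 : p < p' + 2 := by exact_mod_cast h5
    have h8 : p' < p + 2 := by exact_mod_cast h6
    obtain ⟨j, hj⟩ := hodd
    obtain ⟨j', hj'⟩ := hodd'
    omega
  have hvI : ∀ p ∈ P, volume.real (I p) = 1 / x := by
    intro p _
    rw [hI]
    simp only
    rw [Real.volume_real_Ico_of_le]
    · field_simp; ring
    · have : ((p : ℝ) - y) / 2 / x ≤ (((p : ℝ) - y) / 2 + 1) / x := by gcongr; linarith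
      linarith
  have hfin : volume (AA y x β a b) ≠ ⊤ :=
    ne_top_of_le_ne_top (by simp) (measure_mono (AA_sub y x β a b))
  have hU : volume.real (⋃ p ∈ P, I p) = #P * (1 / x) := by
    rw [measureReal_biUnion_finset hdisj (fun p _ => measurableSet_Ico) (fun p _ => by simp [hI])]
    rw [Finset.sum_congr rfl hvI]
    simp
  have hle : (#P : ℝ) * (1 / x) ≤ volume.real (AA y x β a b) := by
    rw [← hU]
    exact measureReal_mono (Set.iUnion₂_subset hIsub) hfin
  refine le_trans ?_ hle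
  rw [div_le_iff₀ (by positivity)]
  calc th x₁ y₁ ≤ #P * Real.log V := hth
    _ = #P * (1 / x) * (x * Real.log V) := by field_simp

/-- a polynomial of degree `m` with positive leading coefficient -/
theorem poly_bds (R : ℝ[X]) (m : ℕ) (hR : R.natDegree ≤ m) (hp : 0 < R.coeff m) :
    ∃ x₀ : ℝ, 0 < x₀ ∧ ∀ x : ℝ, x₀ ≤ x → R.coeff m / 2 * x ^ m ≤ R.eval x ∧ R.eval x ≤ 2 * R.coeff m * x ^ m := by
  have hd : R.natDegree = m := le_antisymm hR (le_natDegree_of_ne_zero hp.ne')
  have hlc : R.leadingCoeff = R.coeff m := by rw [leadingCoeff, hd]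
  have h := R.isEquivalent_atTop_lead
  rw [hlc, hd] at h
  have h1 := h.isLittleO.bound (c := 1 / 2) (by norm_num)
  obtain ⟨x₀, hx₀⟩ := eventually_atTop.1 h1
  refine ⟨max x₀ 1, by positivity, fun x hx => ?_⟩
  have h2 := hx₀ x (le_trans (le_max_left _ _) hx)
  have hx1 : 1 ≤ x := le_trans (le_max_right _ _) hx
  simp only [Pi.sub_apply, Real.norm_eq_abs] at h2
  have h3 : 0 ≤ R.coeff m * x ^ m := by positivity
  rw [abs_of_nonneg h3, abs_le] at h2
  constructor <;> linarith [h2.1, h2.2]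

/-- a polynomial of degree `m ≥ 1` with positive leading coefficient: the differences -/
theorem poly_diff (R : ℝ[X]) (m : ℕ) (hm : 1 ≤ m) (hR : R.natDegree ≤ m) (hp : 0 < R.coeff m) :
    ∃ x₀ c : ℝ, 0 < x₀ ∧ 0 < c ∧ ∀ x x' : ℝ, x₀ ≤ x → x ≤ x' → c * x ^ (m - 1) * (x' - x) ≤ R.eval x' - R.eval x := by
  have hc : R.derivative.coeff (m - 1) = R.coeff m * m := by
    rw [coeff_derivative]
    have : m - 1 + 1 = m := by omega
    rw [this]
    congr 1
    have : ((m - 1 : ℕ) : ℝ) = m - 1 := by push_cast [Nat.cast_sub hm]; ring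
    rw [this]; ring
  have hmp : (0 : ℝ) < m := by exact_mod_cast hm
  obtain ⟨x₀, hx₀, h⟩ := poly_bds R.derivative (m - 1)
    ((natDegree_derivative_le R).trans (Nat.sub_le_sub_right hR 1)) (by rw [hc]; positivity)
  refine ⟨x₀, R.coeff m * m / 2, hx₀, by positivity, fun x x' hx hx' => ?_⟩
  have := Convex.mul_sub_le_image_sub_of_le_deriv (D := Set.Icc x x') (convex_Icc x x') (f := fun t => R.eval t)
    R.continuous.continuousOn R.differentiable.differentiableOn
    (C := R.coeff m * m / 2 * x ^ (m - 1)) (fun t ht => by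
      rw [Polynomial.deriv]
      rw [interior_Icc] at ht
      have h1 := (h t (by linarith [ht.1])).1
      rw [hc] at h1
      refine le_trans ?_ h1
      have : x ^ (m - 1) ≤ t ^ (m - 1) := pow_le_pow_left₀ (by linarith) ht.1.le _
      gcongr) x (Set.left_mem_Icc.2 hx') x' (Set.right_mem_Icc.2 hx') hx'
  exact this

end Pool.Agent.L7h34.ME
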