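import Pool.Agent.L7h34.ME.Win1

set_option autoImplicit false

namespace Pool.Agent.L7h34.ME

open Finset MeasureTheory Filter Polynomial Pool.Agent.L7h2.ME

/-- `C log N ≤ N^t` for large `N` -/
theorem log_small (C t : ℝ) (ht : 0 < t) : ∃ N₀ : ℕ, ∀ N : ℕ, N₀ ≤ N → C * Real.log N ≤ (N : ℝ) ^ t := by
  have h1 := (isLittleO_log_rpow_atTop ht).comp_tendsto tendsto_natCast_atTop_atTop
  have h2 := h1.bound (c := 1 / (|C| + 1)) (by positivity)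
  obtain ⟨N₀, hN₀⟩ := eventually_atTop.1 h2
  refine ⟨max N₀ 1, fun N hN => ?_⟩
  have hN1 : (1 : ℝ) ≤ N := by exact_mod_cast le_trans (le_max_right _ _) hN
  have h3 := hN₀ N (le_trans (le_max_left _ _) hN)
  simp only [Function.comp_apply, Real.norm_eq_abs] at h3
  have hlog : 0 ≤ Real.log N := Real.log_nonneg hN1
  rw [abs_of_nonneg hlog, abs_of_nonneg (Real.rpow_nonneg (by linarith : (0 : ℝ) ≤ N) t)] at h3
  calc C * Real.log N ≤ (|C| + 1) * Real.log N := by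
        gcongr
        linarith [le_abs_self C]
    _ ≤ (|C| + 1) * (1 / (|C| + 1) * (N : ℝ) ^ t) := by gcongr
    _ = (N : ℝ) ^ t := by field_simp

/-- `C ≤ N^t` for large `N` -/
theorem const_small (C t : ℝ) (ht : 0 < t) : ∃ N₀ : ℕ, ∀ N : ℕ, N₀ ≤ N → C ≤ (N : ℝ) ^ t := by
  have h1 := (tendsto_rpow_atTop ht).comp tendsto_natCast_atTop_atTop
  obtain ⟨N₀, hN₀⟩ := eventually_atTop.1 (h1.eventually_ge_atTop C)
  exact ⟨N₀, fun N hN => hN₀ N hN⟩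

/-- an incidence bound: the number of `n ∈ (N, 2N]` with a given point in `[u_n, v_n]` -/
theorem few (N m e : ℕ) (hN : 1 ≤ N) (hm1 : 1 ≤ m) (hme : m ≤ e + 1) (u : ℕ → ℝ) (d c₃ : ℝ) (hd : 0 < d) (hc₃ : 0 < c₃)
    (hu : ∀ n n' : ℕ, N ≤ n → n ≤ n' → c₃ * (n : ℝ) ^ (m - 1) * ((n' : ℝ) - n) ≤ u n' - u n)
    (β : ℝ) (T : Finset ℕ) (hT : ∀ n ∈ T, n ∈ Ioc N (2 * N) ∧ u n ≤ β ∧ β ≤ u n + 2 * d * (n : ℝ) ^ e) :
    (#T : ℝ) ≤ (2 * d * 2 ^ e / c₃ + 1) * (N : ℝ) ^ (e + 1 - m) := by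
  have hN' : (1 : ℝ) ≤ N := by exact_mod_cast hN
  have hpw : (1 : ℝ) ≤ (N : ℝ) ^ (e + 1 - m) := one_le_pow₀ hN'
  rcases T.eq_empty_or_nonempty with hE | hne
  · rw [hE]
    simp only [Finset.card_empty, Nat.cast_zero]
    positivity
  · set n₀ := T.min' hne with hn₀
    obtain ⟨h1, h2, h3⟩ := hT n₀ (T.min'_mem hne)
    have h1' := Finset.mem_Ioc.1 h1
    set K : ℝ := 2 * d * 2 ^ e / c₃ * (N : ℝ) ^ (e + 1 - m) with hK
    have hK0 : 0 ≤ K := by positivity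
    have hsub : T ⊆ Icc n₀ (n₀ + ⌊K⌋₊) := by
      intro n hn
      obtain ⟨g1, g2, g3⟩ := hT n hn
      have hle : n₀ ≤ n := T.min'_le n hn
      refine Finset.mem_Icc.2 ⟨hle, ?_⟩
      have h4 := hu n₀ n h1'.1.le hle
      have hle' : (n₀ : ℝ) ≤ n := by exact_mod_cast hle
      have h5 : c₃ * (N : ℝ) ^ (m - 1) * ((n : ℝ) - n₀) ≤ 2 * d * (2 ^ e * (N : ℝ) ^ e) := by
        have hNn : (N : ℝ) ≤ n₀ := by exact_mod_cast h1'.1.le
        have hn2 : (n₀ : ℝ) ≤ 2 * N := by exact_mod_cast h1'.2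
        calc c₃ * (N : ℝ) ^ (m - 1) * ((n : ℝ) - n₀) ≤ c₃ * (n₀ : ℝ) ^ (m - 1) * ((n : ℝ) - n₀) := by
              have : 0 ≤ (n : ℝ) - n₀ := by linarith
              gcongr
          _ ≤ u n - u n₀ := h4
          _ ≤ 2 * d * (n₀ : ℝ) ^ e := by linarith
          _ ≤ 2 * d * (2 * N) ^ e := by gcongr
          _ = 2 * d * (2 ^ e * (N : ℝ) ^ e) := by rw [mul_pow]
      have h6 : (n : ℝ) - n₀ ≤ K := by
        have e1 : (N : ℝ) ^ e = (N : ℝ) ^ (m - 1) * (N : ℝ) ^ (e + 1 - m) := by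
          rw [← pow_add]; congr 1; omega
        rw [e1] at h5
        have hp : 0 < c₃ * (N : ℝ) ^ (m - 1) := by positivity
        have : c₃ * (N : ℝ) ^ (m - 1) * K = 2 * d * (2 ^ e * ((N : ℝ) ^ (m - 1) * (N : ℝ) ^ (e + 1 - m))) := by
          rw [hK]; field_simp
        rw [← this] at h5
        exact le_of_mul_le_mul_left h5 hp
      have h7 : n - n₀ ≤ ⌊K⌋₊ := Nat.le_floor (by rw [Nat.cast_sub hle]; exact h6)
      omega
    have h8 := Finset.card_le_card hsub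
    rw [Nat.card_Icc] at h8
    have h9 : #T ≤ ⌊K⌋₊ + 1 := by omega
    have h10 : (#T : ℝ) ≤ K + 1 := by
      have : (#T : ℝ) ≤ (⌊K⌋₊ : ℝ) + 1 := by exact_mod_cast h9
      linarith [Nat.floor_le hK0]
    calc (#T : ℝ) ≤ K + 1 := h10
      _ ≤ 2 * d * 2 ^ e / c₃ * (N : ℝ) ^ (e + 1 - m) + (N : ℝ) ^ (e + 1 - m) := by linarith
      _ = _ := by ring

open Classical in
/-- counting the exceptional indices -/
theorem exc_count (J B : Finset ℕ) (x₁ y₁ : ℕ → ℕ) (w D t : ℝ) (hw : 0 ≤ w)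
    (hB : (#B : ℝ) ≤ w) (hD : ∀ β ∈ B, (#(J.filter (fun n => x₁ n ≤ β ∧ β ≤ y₁ n)) : ℝ) ≤ D) (hD0 : 0 ≤ D)
    (hJ : ∀ n ∈ J, t ≤ #(B ∩ Icc (x₁ n) (y₁ n)) * w) :
    #J * t ≤ w ^ 2 * D := by
  have h1 : #J * t ≤ ∑ n ∈ J, (#(B ∩ Icc (x₁ n) (y₁ n)) : ℝ) * w := by
    have := Finset.card_nsmul_le_sum J (fun n => (#(B ∩ Icc (x₁ n) (y₁ n)) : ℝ) * w) t hJ
    simpa using this
  refine h1.trans ?_
  rw [← Finset.sum_mul]
  have h2 : ∑ n ∈ J, (#(B ∩ Icc (x₁ n) (y₁ n)) : ℝ) = ∑ β ∈ B, (#(J.filter (fun n => x₁ n ≤ β ∧ β ≤ y₁ n)) : ℝ) := by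
    have h3 : ∀ n, (#(B ∩ Icc (x₁ n) (y₁ n)) : ℝ) = ∑ β ∈ B, if x₁ n ≤ β ∧ β ≤ y₁ n then (1 : ℝ) else 0 := by
      intro n
      rw [← Finset.sum_filter, Finset.sum_const, nsmul_eq_mul, mul_one]
      congr 2
      ext β; simp [Finset.mem_Icc]
    have h4 : ∀ β, (#(J.filter (fun n => x₁ n ≤ β ∧ β ≤ y₁ n)) : ℝ) =
        ∑ n ∈ J, if x₁ n ≤ β ∧ β ≤ y₁ n then (1 : ℝ) else 0 := by
      intro β
      rw [← Finset.sum_filter, Finset.sum_const, nsmul_eq_mul, mul_one]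
    simp only [h3, h4]
    exact Finset.sum_comm
  rw [h2]
  have h5 : ∑ β ∈ B, (#(J.filter (fun n => x₁ n ≤ β ∧ β ≤ y₁ n)) : ℝ) ≤ #B * D := by
    have := Finset.sum_le_card_nsmul B (fun β => (#(J.filter (fun n => x₁ n ≤ β ∧ β ≤ y₁ n)) : ℝ)) D hD
    simpa using this
  calc (∑ β ∈ B, (#(J.filter (fun n => x₁ n ≤ β ∧ β ≤ y₁ n)) : ℝ)) * w ≤ (#B * D) * w := by gcongr
    _ ≤ (w * D) * w := by gcongr
    _ = w ^ 2 * D := by ring

open Classical in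
/-- the core: everything except the asymptotic facts about `u_n` -/
theorem core (h : S_PTS) : ∃ δ c : ℝ, 0 < δ ∧ δ < 1 / 2 ∧ 0 < c ∧ ∀ (e m : ℕ), 1 ≤ e → 1 ≤ m → m ≤ e + 1 →
    ∀ (Q : ℝ[X]) (a b : ℝ), a < b → ∀ (u : ℕ → ℝ), (∀ n : ℕ, u n = pr n + 2 * (a * (n : ℝ) ^ e + Q.eval (n : ℝ))) →
    ∀ (c₃ L : ℝ), 0 < c₃ → 1 ≤ L → (∃ N₁ : ℕ, ∀ n n' : ℕ, N₁ ≤ n → n ≤ n' →
      c₃ * (n : ℝ) ^ (m - 1) * ((n' : ℝ) - n) ≤ u n' - u n) →
    (∃ N₁ : ℕ, ∀ N n : ℕ, N₁ ≤ N → n ∈ Ioc N (2 * N) → u n + 2 * (b - a) * (n : ℝ) ^ e ≤ L / 2 * u N) →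
    (∀ Y : ℝ, ∃ N₁ : ℕ, ∀ N : ℕ, N₁ ≤ N → Y ≤ u N) → (∃ N₁ : ℕ, ∀ N : ℕ, N₁ ≤ N → u N ≤ (N : ℝ) ^ (m + δ)) →
    ∀ η : ℝ, 0 < η → ∃ N₀ : ℕ, ∀ N : ℕ, N₀ ≤ N → (#((Ioc N (2 * N)).filter (fun n =>
      volume.real (AA (pr n) ((n : ℝ) ^ e) (Q.eval (n : ℝ)) a b) < c / (e + 2) * (b - a) / Real.log N)) : ℝ) ≤ η * N := by
  obtain ⟨δ, c, hδ, hδ2, hc, hX⟩ := h
  refine ⟨δ, c, hδ, hδ2, hc, ?_⟩
  intro e m he hm1 hme Q a b hab u hu c₃ L hc₃ hL ⟨N₁, hN₁⟩ ⟨N₂, hN₂⟩ hinf ⟨N₃, hN₃⟩ η hη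
  obtain ⟨X₀, hX₀⟩ := hX L hL
  obtain ⟨N₄, hN₄⟩ := hinf (X₀ + 3)
  set K : ℝ := 2 * (b - a) * 2 ^ e / c₃ + 1 with hK
  have hd : 0 < b - a := by linarith
  have hKp : 0 < K := by positivity
  set ε : ℝ := min (((b - a) / 4) ^ 2) (η * (b - a) / (4 * K)) with hε
  have hεp : 0 < ε := lt_min (by positivity) (by positivity)
  obtain ⟨N₅, hN₅⟩ := const_small (1 / ε) δ hδ
  obtain ⟨N₆, hN₆⟩ := const_small L (1 / 2) (by norm_num)
  obtain ⟨N₇, hN₇⟩ := const_small (6 / (b - a)) 1 (by norm_num)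
  refine ⟨N₁ + N₂ + N₃ + N₄ + N₅ + N₆ + N₇ + 2, fun N hN => ?_⟩
  have hN2 : 2 ≤ N := by omega
  have hN2' : (2 : ℝ) ≤ N := by exact_mod_cast hN2
  have hN0 : (0 : ℝ) < N := by linarith
  have huN := hN₄ N (by omega)
  have huN3 := hN₃ N (by omega)
  have hlogN : 0 < Real.log N := Real.log_pos (by linarith)
  set X : ℕ := ⌊u N⌋₊ with hXd
  have hX0 : (0 : ℝ) ≤ u N := by
    have : (0 : ℝ) ≤ X₀ := Nat.cast_nonneg _
    linarith
  have hXu : (X : ℝ) ≤ u N := Nat.floor_le hX0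
  have hXl : u N < X + 1 := Nat.lt_floor_add_one _
  have hXX₀ : X₀ ≤ X := Nat.le_floor (by linarith)
  have hX2 : (2 : ℝ) < X := by
    have : (0 : ℝ) ≤ X₀ := Nat.cast_nonneg _
    linarith
  obtain ⟨B, hBc, hB⟩ := hX₀ X hXX₀
  set w : ℝ := (X : ℝ) ^ (1 / 2 - δ) with hw
  have hw0 : 0 < w := by positivity
  -- (A)
  have hA : w ^ 2 ≤ ε * (N : ℝ) ^ m := by
    have h1 : w ^ 2 = (X : ℝ) ^ (1 - 2 * δ) := by
      rw [hw, ← Real.rpow_natCast, ← Real.rpow_mul (by positivity)]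
      congr 1; push_cast; ring
    rw [h1]
    have h2 : (X : ℝ) ^ (1 - 2 * δ) ≤ ((N : ℝ) ^ ((m : ℝ) + δ)) ^ (1 - 2 * δ) :=
      Real.rpow_le_rpow (by positivity) (hXu.trans huN3) (by linarith)
    have h3 : ((N : ℝ) ^ ((m : ℝ) + δ)) ^ (1 - 2 * δ) ≤ (N : ℝ) ^ ((m : ℝ) - δ) := by
      rw [← Real.rpow_mul hN0.le]
      apply Real.rpow_le_rpow_of_exponent_le (by linarith)
      have hm1' : (1 : ℝ) ≤ m := by exact_mod_cast hm1
      nlinarith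
    have h4 : (N : ℝ) ^ ((m : ℝ) - δ) ≤ ε * (N : ℝ) ^ m := by
      rw [Real.rpow_sub hN0, Real.rpow_natCast, div_le_iff₀ (by positivity)]
      have h5 := hN₅ N (by omega)
      have h6 : 1 ≤ ε * (N : ℝ) ^ δ := by
        rw [div_le_iff₀ hεp] at h5; linarith
      have h7 : (0 : ℝ) < (N : ℝ) ^ m := by positivity
      nlinarith
    exact h2.trans (h3.trans h4)
  have hwN : w ≤ (b - a) / 4 * (N : ℝ) ^ e := by
    have h1 : (N : ℝ) ^ m ≤ ((N : ℝ) ^ e) ^ 2 := by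
      rw [← pow_mul]
      exact pow_le_pow_right₀ (by linarith) (by omega)
    have h2 : w ^ 2 ≤ ((b - a) / 4 * (N : ℝ) ^ e) ^ 2 := by
      calc w ^ 2 ≤ ε * (N : ℝ) ^ m := hA
        _ ≤ ((b - a) / 4) ^ 2 * ((N : ℝ) ^ e) ^ 2 := by
          gcongr
          exact min_le_left _ _
        _ = _ := by ring
    exact le_of_sq_le_sq h2 (by positivity)
  set x₁ : ℕ → ℕ := fun n => ⌈u n⌉₊ with hx₁
  set v : ℕ → ℝ := fun n => u n + 2 * (b - a) * (n : ℝ) ^ e with hv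
  set y₁ : ℕ → ℕ := fun n => ⌊v n⌋₊ - 1 with hy₁
  -- properties for `n ∈ (N, 2N]`
  have hun : ∀ n ∈ Ioc N (2 * N), u N ≤ u n := by
    intro n hn
    have h1 := Finset.mem_Ioc.1 hn
    have h2 := hN₁ N n (by omega) h1.1.le
    have h3 : (N : ℝ) ≤ n := by exact_mod_cast h1.1.le
    have h4 : 0 ≤ c₃ * (N : ℝ) ^ (m - 1) * ((n : ℝ) - N) := by
      have : 0 ≤ (n : ℝ) - N := by linarith
      positivity
    linarith
  have hne : ∀ n ∈ Ioc N (2 * N), (6 : ℝ) ≤ (b - a) * (n : ℝ) ^ e := by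
    intro n hn
    have h1 := Finset.mem_Ioc.1 hn
    have h3 : (N : ℝ) ≤ n := by exact_mod_cast h1.1.le
    have h4 := hN₇ N (by omega)
    rw [Real.rpow_one, div_le_iff₀ hd] at h4
    have h5 : (n : ℝ) ≤ (n : ℝ) ^ e := le_self_pow₀ (by linarith) (by omega)
    nlinarith
  have hy₁l : ∀ n ∈ Ioc N (2 * N), v n - 2 < y₁ n ∧ (y₁ n : ℝ) + 1 ≤ v n := by
    intro n hn
    have h1 := hun n hn
    have h2 := hne n hn
    have hvn : v n = u n + 2 * (b - a) * (n : ℝ) ^ e := rfl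
    have h3 : (1 : ℝ) ≤ v n := by rw [hvn]; linarith
    have h4 : 1 ≤ ⌊v n⌋₊ := Nat.le_floor (by simpa using h3)
    have h5 : (y₁ n : ℝ) = ⌊v n⌋₊ - 1 := by
      simp only [hy₁]; push_cast [Nat.cast_sub h4]; ring
    have h6 := Nat.lt_floor_add_one (v n)
    have h7 := Nat.floor_le (show 0 ≤ v n by linarith)
    rw [h5]
    constructor <;> linarith
  have hx₁l : ∀ n ∈ Ioc N (2 * N), u n ≤ x₁ n ∧ (x₁ n : ℝ) < u n + 1 := by
    intro n hn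
    exact ⟨Nat.le_ceil _, Nat.ceil_lt_add_one (by linarith [hun n hn])⟩
  set Exc : Finset ℕ := (Ioc N (2 * N)).filter (fun n => (b - a) / 4 * (N : ℝ) ^ e ≤
    #(B ∩ Icc (x₁ n) (y₁ n)) * w) with hExc
  -- the bad `n` are exceptional
  have hsub : (Ioc N (2 * N)).filter (fun n =>
      volume.real (AA (pr n) ((n : ℝ) ^ e) (Q.eval (n : ℝ)) a b) < c / (e + 2) * (b - a) / Real.log N) ⊆ Exc := by
    intro n hn
    obtain ⟨hn1, hn2⟩ := Finset.mem_filter.1 hn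
    refine Finset.mem_filter.2 ⟨hn1, ?_⟩
    by_contra hcon
    push Not at hcon
    have hnI := Finset.mem_Ioc.1 hn1
    have hNn : (N : ℝ) ≤ n := by exact_mod_cast hnI.1.le
    have hn0 : (0 : ℝ) < n := by linarith
    have hunN := hun n hn1
    have hne' := hne n hn1
    obtain ⟨hy1, hy2⟩ := hy₁l n hn1
    obtain ⟨hx1, hx2⟩ := hx₁l n hn1
    have hvn : v n = u n + 2 * (b - a) * (n : ℝ) ^ e := rfl
    have hvL : v n ≤ L / 2 * u N := hN₂ N n (by omega) hn1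
    have hxy : x₁ n ≤ y₁ n := by
      have : (x₁ n : ℝ) ≤ y₁ n := by linarith
      exact_mod_cast this
    have hXx : X ≤ x₁ n := by
      have : (X : ℝ) ≤ x₁ n := by linarith
      exact_mod_cast this
    have hyL : (y₁ n : ℝ) ≤ L * X := by
      have h8 : u N ≤ 2 * X := by linarith
      have : L / 2 * u N ≤ L / 2 * (2 * X) := by gcongr
      linarith
    have hth := hB (x₁ n) (y₁ n) hXx hyL hxy
    have hNe : (N : ℝ) ^ e ≤ (n : ℝ) ^ e := by gcongr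
    have h9 : ((#(B ∩ Icc (x₁ n) (y₁ n)) : ℝ) + 1) * w ≤ (b - a) / 2 * (n : ℝ) ^ e := by
      have : (b - a) / 4 * (N : ℝ) ^ e ≤ (b - a) / 4 * (n : ℝ) ^ e := by gcongr
      nlinarith
    have h10 : c * ((b - a) * (n : ℝ) ^ e) ≤ th (x₁ n) (y₁ n) := by
      refine le_trans ?_ hth
      gcongr
      linarith
    have hodd : Odd (pr n) := (pr_prime n).odd_of_ne_two (by
      have := le_pr (show 1 ≤ n by omega)
      omega)
    have hlogV : Real.log ((N : ℝ) ^ (e + 2)) = (e + 2) * Real.log N := by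
      rw [Real.log_pow]; push_cast; ring
    have hV : (y₁ n : ℝ) ≤ (N : ℝ) ^ (e + 2) := by
      have h11 : u N ≤ (N : ℝ) ^ ((m : ℝ) + 1 / 2) := huN3.trans
        (Real.rpow_le_rpow_of_exponent_le (by linarith) (by linarith))
      have h12 := hN₆ N (by omega)
      have h13 : L * u N ≤ (N : ℝ) ^ ((1 : ℝ) / 2) * (N : ℝ) ^ ((m : ℝ) + 1 / 2) := by gcongr
      rw [← Real.rpow_add hN0] at h13
      have h14 : (N : ℝ) ^ ((1 : ℝ) / 2 + ((m : ℝ) + 1 / 2)) ≤ (N : ℝ) ^ (((e + 2 : ℕ) : ℝ)) := by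
        apply Real.rpow_le_rpow_of_exponent_le (by linarith)
        have : (m : ℝ) ≤ e + 1 := by exact_mod_cast hme
        push_cast; linarith
      rw [Real.rpow_natCast] at h14
      have h15 : 0 ≤ L * u N := by positivity
      linarith
    have hmain := AA_ge (pr n) hodd ((n : ℝ) ^ e) (Q.eval (n : ℝ)) a b (by positivity) (x₁ n) (y₁ n)
      (by rw [← hu n]; exact hx1) (by
        have : (pr n : ℝ) + 2 * (b * (n : ℝ) ^ e + Q.eval (n : ℝ)) = v n := by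
          rw [hvn, hu n]; ring
        rw [this]; exact hy2) (by
        have : (2 : ℝ) ≤ x₁ n := by linarith
        exact_mod_cast this) ((N : ℝ) ^ (e + 2)) (one_lt_pow₀ (by linarith) (by omega)) hV
    rw [hlogV] at hmain
    have h16 : c / (e + 2) * (b - a) / Real.log N ≤
        th (x₁ n) (y₁ n) / ((n : ℝ) ^ e * ((e + 2) * Real.log N)) := by
      rw [le_div_iff₀ (by positivity)]
      refine le_trans (le_of_eq ?_) h10
      field_simp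
    linarith
  have hcount := exc_count Exc B x₁ y₁ w (K * (N : ℝ) ^ (e + 1 - m)) ((b - a) / 4 * (N : ℝ) ^ e) hw0.le hBc
    (by
      intro β _
      refine few N m e (by omega) hm1 hme u (b - a) c₃ hd hc₃ (fun n n' h1 h2 => hN₁ n n' (by omega) h2) β _ ?_
      intro n hn
      obtain ⟨h1, h2, h3⟩ := Finset.mem_filter.1 hn
      have hn1 := (Finset.mem_filter.1 h1).1
      refine ⟨hn1, ?_, ?_⟩
      · exact (hx₁l n hn1).1.trans (by exact_mod_cast h2)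
      · have h4 : (β : ℝ) ≤ y₁ n := by exact_mod_cast h3
        have h5 := (hy₁l n hn1).2
        have hvn : v n = u n + 2 * (b - a) * (n : ℝ) ^ e := rfl
        linarith) (by positivity) (fun n hn => (Finset.mem_filter.1 hn).2)
  have hfin : (#Exc : ℝ) ≤ η * N := by
    have h1 : w ^ 2 * (K * (N : ℝ) ^ (e + 1 - m)) ≤ η * (b - a) / 4 * ((N : ℝ) ^ e * N) := by
      have e1 : (N : ℝ) ^ m * (N : ℝ) ^ (e + 1 - m) = (N : ℝ) ^ e * N := by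
        rw [← pow_add, ← pow_succ]; congr 1; omega
      calc w ^ 2 * (K * (N : ℝ) ^ (e + 1 - m)) ≤ (ε * (N : ℝ) ^ m) * (K * (N : ℝ) ^ (e + 1 - m)) := by gcongr
        _ = ε * K * ((N : ℝ) ^ m * (N : ℝ) ^ (e + 1 - m)) := by ring
        _ = ε * K * ((N : ℝ) ^ e * N) := by rw [e1]
        _ ≤ (η * (b - a) / (4 * K)) * K * ((N : ℝ) ^ e * N) := by
            gcongr
            exact min_le_right _ _
        _ = η * (b - a) / 4 * ((N : ℝ) ^ e * N) := by field_simp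
    have h2 : (#Exc : ℝ) * ((b - a) / 4 * (N : ℝ) ^ e) ≤ (η * N) * ((b - a) / 4 * (N : ℝ) ^ e) := by
      refine hcount.trans (h1.trans (le_of_eq ?_))
      ring
    exact le_of_mul_le_mul_right h2 (by positivity)
  refine le_trans ?_ hfin
  exact_mod_cast Finset.card_le_card hsub

end Pool.Agent.L7h34.ME
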